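import Pool.Agent.Helper47.FLG.Alg

set_option autoImplicit false

namespace Pool.Agent.Helper31.FLG

open Finset Pool.Agent.Helper47.RFn Pool.Agent.Helper47.FLG

section aux

variable {n : ℕ}

theorem dot_lin (u v w : Fin n → ℝ) (s t : ℝ) :
    dot u (fun i => s * v i + t * w i) = s * dot u v + t * dot u w := by
  unfold dot
  rw [Finset.mul_sum, Finset.mul_sum, ← Finset.sum_add_distrib]
  exact Finset.sum_congr rfl fun i _ => by ring

theorem dot_comm' (u v : Fin n → ℝ) : dot u v = dot v u := by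
  unfold dot
  exact Finset.sum_congr rfl fun i _ => by ring

theorem nrm_dot (u : Fin n → ℝ) : nrm u = dot u u := by
  unfold nrm dot
  exact Finset.sum_congr rfl fun i _ => by ring

theorem nrm_lin (v w : Fin n → ℝ) (s t : ℝ) :
    nrm (fun i => s * v i + t * w i) = s ^ 2 * nrm v + 2 * s * t * dot v w + t ^ 2 * nrm w := by
  rw [nrm_dot, nrm_dot v, nrm_dot w, dot_lin, dot_comm' _ v, dot_comm' _ w, dot_lin, dot_lin,
    dot_comm' w v]
  ring

theorem nrm_nonneg' (v : Fin n → ℝ) : 0 ≤ nrm v := Finset.sum_nonneg fun _ _ => sq_nonneg _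

theorem nrm_eq_zero' {v : Fin n → ℝ} (h : nrm v = 0) : v = fun _ => 0 := by
  unfold nrm at h
  rw [Finset.sum_eq_zero_iff_of_nonneg (fun _ _ => sq_nonneg _)] at h
  funext i
  exact pow_eq_zero_iff (two_ne_zero) |>.1 (h i (Finset.mem_univ i))

theorem abs_le_one {v : Fin n → ℝ} (h : nrm v = 1) (i : Fin n) : |v i| ≤ 1 := by
  have h1 : v i ^ 2 ≤ nrm v := Finset.single_le_sum (f := fun i => v i ^ 2)
    (fun _ _ => sq_nonneg _) (Finset.mem_univ i)
  rw [h] at h1
  exact abs_le_one_iff_mul_self_le_one.2 (by nlinarith)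

theorem R4_bound (R : T4 n) (M : ℝ) (hM : ∀ a b c d, |R a b c d| ≤ M) (a b c d : Fin n → ℝ)
    (ha : ∀ i, |a i| ≤ 1) (hb : ∀ i, |b i| ≤ 1) (hc : ∀ i, |c i| ≤ 1) (hd : ∀ i, |d i| ≤ 1) :
    |R4 R a b c d| ≤ (n : ℝ) ^ 4 * M := by
  unfold R4
  have key : ∀ i j k l, |R i j k l * a i * b j * c k * d l| ≤ M := by
    intro i j k l
    rw [abs_mul, abs_mul, abs_mul, abs_mul]
    have h0 := abs_nonneg (R i j k l)
    have hM0 : 0 ≤ M := le_trans h0 (hM i j k l)
    calc |R i j k l| * |a i| * |b j| * |c k| * |d l| ≤ M * 1 * 1 * 1 * 1 := by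
          gcongr
          · exact hM i j k l
          · exact ha i
          · exact hb j
          · exact hc k
          · exact hd l
      _ = M := by ring
  calc |∑ i, ∑ j, ∑ k, ∑ l, R i j k l * a i * b j * c k * d l|
      ≤ ∑ i, |∑ j, ∑ k, ∑ l, R i j k l * a i * b j * c k * d l| := Finset.abs_sum_le_sum_abs _ _
    _ ≤ ∑ i, ∑ j, |∑ k, ∑ l, R i j k l * a i * b j * c k * d l| :=
        Finset.sum_le_sum fun i _ => Finset.abs_sum_le_sum_abs _ _
    _ ≤ ∑ i, ∑ j, ∑ k, |∑ l, R i j k l * a i * b j * c k * d l| :=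
        Finset.sum_le_sum fun i _ => Finset.sum_le_sum fun j _ => Finset.abs_sum_le_sum_abs _ _
    _ ≤ ∑ i, ∑ j, ∑ k, ∑ l, |R i j k l * a i * b j * c k * d l| :=
        Finset.sum_le_sum fun i _ => Finset.sum_le_sum fun j _ => Finset.sum_le_sum fun k _ =>
          Finset.abs_sum_le_sum_abs _ _
    _ ≤ ∑ _i : Fin n, ∑ _j : Fin n, ∑ _k : Fin n, ∑ _l : Fin n, M :=
        Finset.sum_le_sum fun i _ => Finset.sum_le_sum fun j _ => Finset.sum_le_sum fun k _ =>
          Finset.sum_le_sum fun l _ => key i j k l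
    _ = (n : ℝ) ^ 4 * M := by
        simp only [Finset.sum_const, Finset.card_univ, Fintype.card_fin, nsmul_eq_mul]
        ring

end aux

theorem g_FG1 (hR4T : G_R4T) (hCL : Goal_CL) : G_FG1 := by
  intro n
  obtain ⟨h1, h2, h3, h4, h5, h6, h7, h8, h9, -⟩ := hR4T n
  obtain ⟨-, -, cId, cAdd, cSmul, -⟩ := hCL n
  -- linearity of `fl`
  have kAdd : ∀ (R S : T4 n) u v, K2 (R + S) u v = K2 R u v + K2 S u v := by
    intro R S u v
    rw [h4, h4 R, h4 S]
    exact (h2 R S u v u v 0).1
  have kSmul : ∀ (c : ℝ) (R : T4 n) u v, K2 (c • R) u v = c * K2 R u v := by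
    intro c R u v
    rw [h4, h4 R]
    exact (h2 R R u v u v c).2
  have fAdd : ∀ (R S : T4 n) z x y, fl (R + S) z x y = fl R z x y + fl S z x y := by
    intro R S z x y
    unfold fl
    rw [kAdd, kAdd]
    ring
  have fSmul : ∀ (c : ℝ) (R : T4 n) z x y, fl (c • R) z x y = c * fl R z x y := by
    intro c R z x y
    unfold fl
    rw [kSmul, kSmul]
    ring
  have fId : ∀ z x y, fl (Id4 n) z x y = 3 * wd x z * wd y z := by
    intro z x y
    unfold fl
    rw [h7, h7]
    ring
  -- the key scaling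
  have skew1 : ∀ R : T4 n, IsCurv R → ∀ u c d, R4 R u u c d = 0 := by
    intro R hR u c d
    have := (h3 R hR u u c d).1
    linarith
  have skew2 : ∀ R : T4 n, IsCurv R → ∀ u a b, R4 R a b u u = 0 := by
    intro R hR u a b
    have := (h3 R hR a b u u).2.1
    linarith
  have kLin : ∀ R : T4 n, IsCurv R → ∀ u v (s t : ℝ),
      K2 R u (fun i => s * v i + t * u i) = s ^ 2 * K2 R u v := by
    intro R hR u v s t
    rw [h4, h4, (h1 R v u u u (fun i => s * v i + t * u i) s t).2.1,
      (h1 R v u u v u s t).2.2.2, skew1 R hR, skew2 R hR]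
    ring
  have kLin' : ∀ R : T4 n, IsCurv R → ∀ u v (s t : ℝ),
      K2 R (fun i => s * u i + t * v i) v = s ^ 2 * K2 R u v := by
    intro R hR u v s t
    rw [h5 R hR, kLin R hR, h5 R hR]
  have wLin' : ∀ (u v : Fin n → ℝ) (s t : ℝ),
      wd (fun i => s * u i + t * v i) v = s ^ 2 * wd u v := by
    intro u v s t
    unfold wd
    rw [nrm_lin, dot_comm' (fun i => s * u i + t * v i) v, dot_lin, dot_comm' v u, ← nrm_dot v]
    ring
  have k0 : ∀ (R : T4 n) u, K2 R u (fun _ => 0) = 0 := by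
    intro R u
    rw [h4]
    have := (h1 R (fun _ => 0) (fun _ => 0) u u (fun _ => 0) 0 0).2.1
    simp only [zero_mul, add_zero] at this
    exact this
  -- degenerate planes
  have kDeg : ∀ R : T4 n, IsCurv R → ∀ u v, wd u v = 0 → K2 R u v = 0 := by
    intro R hR u v hw
    by_cases hv : nrm v = 0
    · rw [nrm_eq_zero' hv]
      exact k0 R u
    · have hz : nrm (fun i => nrm v * u i + (-(dot u v)) * v i) = 0 := by
        rw [nrm_lin]
        unfold wd at hw
        have : nrm v ^ 2 * nrm u + 2 * nrm v * -dot u v * dot u v + (-dot u v) ^ 2 * nrm v =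
            nrm v * (nrm u * nrm v - dot u v ^ 2) := by ring
        rw [this, hw, mul_zero]
      have h10 := kLin' R hR u v (nrm v) (-(dot u v))
      rw [nrm_eq_zero' hz, h5 R hR, k0] at h10
      rcases mul_eq_zero.1 h10.symm with h11 | h11
      · exact absurd (pow_eq_zero_iff (two_ne_zero) |>.1 h11) hv
      · exact h11
  have fDeg : ∀ R : T4 n, IsCurv R → ∀ z x y, wd x z * wd y z = 0 → fl R z x y = 0 := by
    intro R hR z x y h
    unfold fl
    rcases mul_eq_zero.1 h with h | h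
    · rw [kDeg R hR x z h, h]; ring
    · rw [kDeg R hR y z h, h]; ring
  -- normalisation
  have norm1 : ∀ z x : Fin n → ℝ, wd x z ≠ 0 → 0 < nrm z ∧ ∃ x' : Fin n → ℝ, nrm x' = 1 ∧
      dot x' (fun i => (1 / √(nrm z)) * z i + 0 * x i) = 0 ∧ ∀ R : T4 n, IsCurv R →
        K2 R x z = wd x z * K2 R x' (fun i => (1 / √(nrm z)) * z i + 0 * x i) := by
    intro z x hxz
    have hw : 0 < wd x z := lt_of_le_of_ne (h8 x z) (Ne.symm hxz)
    have hz : 0 < nrm z := by
      rcases (nrm_nonneg' z).lt_or_eq with h | h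
      · exact h
      · exfalso
        unfold wd at hw
        rw [← h] at hw
        nlinarith [sq_nonneg (dot x z)]
    refine ⟨hz, ?_⟩
    set p := nrm z with hp
    set W := wd x z with hW
    have hsp : √p * √p = p := Real.mul_self_sqrt hz.le
    have hsp0 : √p ≠ 0 := (Real.sqrt_pos.2 hz).ne'
    set β := √(p / W) with hβ
    have hβ2 : β ^ 2 = p / W := Real.sq_sqrt (div_nonneg hz.le hw.le)
    have hWe : W = nrm x * p - dot x z ^ 2 := rfl
    refine ⟨fun i => β * x i + (-(β * dot x z / p)) * z i, ?_, ?_, ?_⟩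
    · rw [nrm_lin, ← hp]
      have : β ^ 2 * nrm x + 2 * β * -(β * dot x z / p) * dot x z +
          (-(β * dot x z / p)) ^ 2 * p = β ^ 2 * (nrm x - dot x z ^ 2 / p) := by
        field_simp
        ring
      rw [this, hβ2]
      have h12 : nrm x - dot x z ^ 2 / p = W / p := by
        rw [hWe]
        field_simp
      rw [h12]
      field_simp
    · rw [dot_lin, dot_comm' _ z, dot_lin, dot_comm' z x, ← nrm_dot z, ← hp]
      field_simp
      ring
    · intro R hR
      have e1 : (fun i => β * x i + (-(β * dot x z / p)) * z i) =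
          fun i => β * x i + (-(β * dot x z / p) * √p) *
            ((1 / √p) * z i + 0 * x i) := by
        funext i
        field_simp
        ring
      rw [e1, kLin' R hR x (fun i => (1 / √p) * z i + 0 * x i), kLin R hR x z, hβ2]
      field_simp
      rw [Real.sq_sqrt hz.le]
  have fNorm : ∀ z x y : Fin n → ℝ, wd x z * wd y z ≠ 0 → ∃ z' x' y' : Fin n → ℝ,
      nrm z' = 1 ∧ nrm x' = 1 ∧ nrm y' = 1 ∧
      dot x' z' = 0 ∧ dot y' z' = 0 ∧ ∀ R : T4 n, IsCurv R →
        fl R z x y = wd x z * wd y z * (4 * K2 R y' z' - K2 R x' z') := by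
    intro z x y h
    have hx : wd x z ≠ 0 := left_ne_zero_of_mul h
    have hy : wd y z ≠ 0 := right_ne_zero_of_mul h
    obtain ⟨hz, x', hx1, hx2, hx3⟩ := norm1 z x hx
    obtain ⟨-, y', hy1, hy2, hy3⟩ := norm1 z y hy
    have e : ∀ w : Fin n → ℝ, (fun i => (1 / √(nrm z)) * z i + 0 * w i) =
        fun i => (1 / √(nrm z)) * z i := by
      intro w
      funext i
      ring
    rw [e] at hx2 hy2
    simp only [e] at hx3 hy3
    refine ⟨fun i => (1 / √(nrm z)) * z i, x', y', ?_, hx1, hy1, hx2, hy2, ?_⟩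
    · have := nrm_lin z z (1 / √(nrm z)) 0
      simp only [zero_mul, add_zero] at this
      rw [this]
      have : √(nrm z) ≠ 0 := (Real.sqrt_pos.2 hz).ne'
      field_simp
      rw [Real.sq_sqrt hz.le]
      ring
    · intro R hR
      unfold fl
      rw [hx3 R hR, hy3 R hR]
      ring
  have gAdd : ∀ R S : T4 n, FG R → FG S → FG (R + S) := by
    intro R S hR hS
    refine ⟨cAdd R S hR.1 hS.1, fun z x y => ?_⟩
    rw [fAdd]
    exact add_nonneg (hR.2 z x y) (hS.2 z x y)
  have gSmul : ∀ (c : ℝ) (R : T4 n), 0 ≤ c → FG R → FG (c • R) := by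
    intro c R hc hR
    refine ⟨cSmul c R hR.1, fun z x y => ?_⟩
    rw [fSmul]
    exact mul_nonneg hc (hR.2 z x y)
  have gId : FG (Id4 n) := by
    refine ⟨cId, fun z x y => ?_⟩
    rw [fId]
    exact mul_nonneg (mul_nonneg (by norm_num) (h8 _ _)) (h8 _ _)
  refine ⟨gAdd, gSmul, fun c R hc hR => gAdd _ _ hR (gSmul _ _ hc gId), fAdd, fSmul, fId, ?_,
    fDeg, fNorm, ?_⟩
  · intro R hR u v
    have h := hR.2 v u u
    unfold fl at h
    rcases (h8 u v).lt_or_eq with hw | hw
    · have h13 : 0 ≤ 3 * (K2 R u v * wd u v) := by linarith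
      by_contra hcon
      push Not at hcon
      nlinarith
    · rw [kDeg R hR.1 u v hw.symm]
  · refine ⟨5 * (n : ℝ) ^ 4 + 1, by positivity, ?_⟩
    intro R M hR hM z x y
    by_cases h : wd x z * wd y z = 0
    · rw [fDeg R hR z x y h, h]
      simp
    · obtain ⟨z', x', y', nz, nx, ny, -, -, hf⟩ := fNorm z x y h
      have hn : Nonempty (Fin n) := by
        by_contra hcon
        rw [not_nonempty_iff] at hcon
        apply h
        have : wd x z = 0 := by
          unfold wd nrm dot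
          simp
        rw [this, zero_mul]
      obtain ⟨i⟩ := hn
      have hM0 : 0 ≤ M := le_trans (abs_nonneg _) (hM i i i i)
      have hW : 0 ≤ wd x z * wd y z := mul_nonneg (h8 _ _) (h8 _ _)
      rw [hf R hR, abs_mul, abs_of_nonneg hW]
      have b1 : |K2 R y' z'| ≤ (n : ℝ) ^ 4 * M := by
        rw [h4]
        exact R4_bound R M hM _ _ _ _ (abs_le_one ny) (abs_le_one nz) (abs_le_one ny)
          (abs_le_one nz)
      have b2 : |K2 R x' z'| ≤ (n : ℝ) ^ 4 * M := by
        rw [h4]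
        exact R4_bound R M hM _ _ _ _ (abs_le_one nx) (abs_le_one nz) (abs_le_one nx)
          (abs_le_one nz)
      have b3 : |4 * K2 R y' z' - K2 R x' z'| ≤ (5 * (n : ℝ) ^ 4 + 1) * M := by
        obtain ⟨c1, c2⟩ := abs_le.1 b1
        obtain ⟨c3, c4⟩ := abs_le.1 b2
        rw [abs_le]
        constructor <;> nlinarith
      calc wd x z * wd y z * |4 * K2 R y' z' - K2 R x' z'|
          ≤ wd x z * wd y z * ((5 * (n : ℝ) ^ 4 + 1) * M) :=
            mul_le_mul_of_nonneg_left b3 hW
        _ = (5 * (n : ℝ) ^ 4 + 1) * M * (wd x z * wd y z) := by ring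

end Pool.Agent.Helper31.FLG
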