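import Pool.Agent.Helper47.FLG.Fun

set_option autoImplicit false

/-!
# Project FLG, packet PFG: weakly quarter pinched tensors are in the cone FG
-/

namespace Pool.Agent.Helper47.FLG

open Finset Pool.Agent.Helper47.RFn

theorem p_PFG (hR4T : G_R4T) (hFG1 : G_FG1) : G_PFG := by
  intro n δ R hδ hR hP
  obtain ⟨-, -, -, -, -, -, -, hwd, -, -, -, -, -⟩ := hR4T n
  obtain ⟨-, -, -, -, -, -, -, hdeg, hnon, -⟩ := hFG1 n
  refine ⟨hR, fun z x y => ?_⟩
  by_cases h0 : wd x z * wd y z = 0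
  · rw [hdeg R hR z x y h0]
  · obtain ⟨z', x', y', hz, hx, hy, hxz, hyz, hf⟩ := hnon z x y h0
    rw [hf R hR]
    refine mul_nonneg (mul_nonneg (hwd x z) (hwd y z)) ?_
    have h1 := hP y' z' x' z' hy hz hyz hx hz hxz
    have h2 := hP x' z' x' z' hx hz hxz hx hz hxz
    nlinarith [h1.2, h2.1, mul_nonneg (sub_nonneg.mpr hδ) h2.1.le]

end Pool.Agent.Helper47.FLG
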